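import Pool.Agent.helper52.ADX.Main

set_option autoImplicit false

/-!
# The action dimension conjecture for Artin groups

Let `L` be the nerve of a Coxeter matrix on a finite set whose reduced homology with coefficients in
`ℚ` or in `ZMod 2` is nonzero in degree `l`, and let `Γ` be a group which contains a subgroup `Λ` of
finite index of the Artin group (for example the Artin group itself).  If `Γ` acts properly
discontinuously by homeomorphisms on a contractible topological `n`-manifold, then `2 l + 2 ≤ n`.
-/

namespace Pool.Agent.Results.MP_b5ea8f_gt.ActDimArtin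

open Pool.Agent.helper52.ADX Pool.Agent.helper83.AD

theorem result {B : Type} [Fintype B] [LinearOrder B] (M : CoxeterMatrix B) (l : ℕ)
    (hL : RedHomNonzeroCx ℚ (Spherical M) l ∨ RedHomNonzeroCx (ZMod 2) (Spherical M) l)
    {Λ Γ : Type*} [Group Λ] [Group Γ]
    (ι : Λ →* ArtinGroup M) (hι : Function.Injective ι) (hindex : ι.range.FiniteIndex)
    (φ : Λ →* Γ) (hφ : Function.Injective φ)
    {X : Type*} [TopologicalSpace X] [T2Space X] [ContractibleSpace X] {n : ℕ}
    [ChartedSpace (EuclideanSpace ℝ (Fin n)) X]
    [MulAction Γ X] [ContinuousConstSMul Γ X] [ProperlyDiscontinuousSMul Γ X] :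
    2 * l + 2 ≤ n := by
  refine artin_main M l n hL.symm X Γ ι.range hindex
    (φ.comp (MonoidHom.ofInjective hι).symm.toMonoidHom) ?_
  exact hφ.comp (MonoidHom.ofInjective hι).symm.injective

end Pool.Agent.Results.MP_b5ea8f_gt.ActDimArtin
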